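import Pool.Agent.Q64.GL.Stm

set_option autoImplicit false

/-! Project GL: a lower bound for the function `g*`. -/

open MeasureTheory Set Filter Topology
open scoped ENNReal NNReal Real

namespace Pool.Agent.Q208.GL

open Pool.Agent.Q64.GL

theorem poisson_eq (f : ℝ → ℝ) (z y : ℝ) :
    poisson f z y = (1 / π) * ∫ t, y * f t / ((z - t) ^ 2 + y ^ 2) := by
  unfold poisson
  congr 1
  rw [← integral_sub_left_eq_self (fun t => y * f t / ((z - t) ^ 2 + y ^ 2)) volume z]
  refine integral_congr_ae (Eventually.of_forall fun x => ?_)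
  show y * f (z - x) / (x ^ 2 + y ^ 2) = y * f (z - x) / ((z - (z - x)) ^ 2 + y ^ 2)
  rw [sub_sub_cancel]

theorem deriv_poisson {f : ℝ → ℝ} (hf : Integrable f volume) {z y : ℝ} (hy : 0 < y) :
    deriv (fun s => poisson f s y) z =
      (1 / π) * ∫ t, -(2 * y * (z - t)) / ((z - t) ^ 2 + y ^ 2) ^ 2 * f t := by
  have hfun : (fun s => poisson f s y) =
      fun s => (1 / π) * ∫ t, y * f t / ((s - t) ^ 2 + y ^ 2) := by
    funext s; exact poisson_eq f s y
  rw [hfun]
  have hpos : ∀ s t : ℝ, 0 < (s - t) ^ 2 + y ^ 2 := fun s t => by positivity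
  have hmeas : ∀ s : ℝ, AEStronglyMeasurable (fun t => y * f t / ((s - t) ^ 2 + y ^ 2)) volume := by
    intro s
    have h1 : AEStronglyMeasurable (fun t : ℝ => y / ((s - t) ^ 2 + y ^ 2)) volume := by
      refine Continuous.aestronglyMeasurable ?_
      exact continuous_const.div (by fun_prop) fun t => (hpos s t).ne'
    refine (h1.mul hf.aestronglyMeasurable).congr (Eventually.of_forall fun t => ?_)
    show y / ((s - t) ^ 2 + y ^ 2) * f t = _
    ring
  have key := hasDerivAt_integral_of_dominated_loc_of_deriv_le (μ := volume) (𝕜 := ℝ)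
    (F := fun s t => y * f t / ((s - t) ^ 2 + y ^ 2))
    (F' := fun s t => -(2 * y * (s - t)) / ((s - t) ^ 2 + y ^ 2) ^ 2 * f t)
    (bound := fun t => (1 / y ^ 2) * |f t|) (x₀ := z) (s := univ) univ_mem
    (Eventually.of_forall hmeas) ?_ ?_ ?_ (hf.abs.const_mul _) ?_
  · rw [(key.2.const_mul (1 / π)).deriv]
  · -- integrable
    refine Integrable.mono' (hf.abs.const_mul (1 / y)) (hmeas z) (Eventually.of_forall fun t => ?_)
    rw [Real.norm_eq_abs, abs_div, abs_mul, abs_of_pos hy, abs_of_pos (hpos z t)]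
    rw [div_le_iff₀ (hpos z t)]
    have h0 : 0 ≤ |f t| := abs_nonneg _
    have : 1 / y * |f t| * ((z - t) ^ 2 + y ^ 2) = y * |f t| + (z - t) ^ 2 / y * |f t| := by
      field_simp; ring
    rw [this]
    have h1 : 0 ≤ (z - t) ^ 2 / y * |f t| := by positivity
    linarith
  · have h1 : AEStronglyMeasurable
        (fun t : ℝ => -(2 * y * (z - t)) / ((z - t) ^ 2 + y ^ 2) ^ 2) volume := by
      refine Continuous.aestronglyMeasurable ?_
      refine Continuous.div (by fun_prop) (by fun_prop) fun t => ?_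
      have := hpos z t
      positivity
    exact h1.mul hf.aestronglyMeasurable
  · refine Eventually.of_forall fun t s _ => ?_
    rw [Real.norm_eq_abs, abs_mul]
    refine mul_le_mul_of_nonneg_right ?_ (abs_nonneg _)
    have h2 := hpos s t
    rw [abs_div, abs_neg, abs_mul, abs_mul, abs_of_pos hy, abs_of_pos (show (0:ℝ) < 2 by norm_num),
      abs_of_pos (show 0 < ((s - t) ^ 2 + y ^ 2) ^ 2 by positivity),
      div_le_div_iff₀ (by positivity) (by positivity)]
    have h3 : 2 * y * |s - t| ≤ (s - t) ^ 2 + y ^ 2 := by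
      rw [← sq_abs (s - t)]
      nlinarith [sq_nonneg (|s - t| - y)]
    have h4 : y ^ 2 ≤ (s - t) ^ 2 + y ^ 2 := by nlinarith [sq_nonneg (s - t)]
    calc 2 * y * |s - t| * y ^ 2 ≤ ((s - t) ^ 2 + y ^ 2) * ((s - t) ^ 2 + y ^ 2) :=
          mul_le_mul h3 h4 (by positivity) h2.le
      _ = 1 * ((s - t) ^ 2 + y ^ 2) ^ 2 := by ring
  · refine Eventually.of_forall fun t s _ => ?_
    have h2 := hpos s t
    have h5 : HasDerivAt (fun s : ℝ => (s - t) ^ 2 + y ^ 2) (2 * (s - t)) s := by
      have := ((hasDerivAt_id s).sub_const t).pow 2 |>.add_const (y ^ 2)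
      simpa using this
    have h6 := (hasDerivAt_const s (y * f t)).div h5 h2.ne'
    refine h6.congr_deriv ?_
    field_simp
    ring

theorem t_LOW : S_LOW := by
  intro lam hlam
  have hpi := Real.pi_pos
  set c1 : ℝ := 2 / (169 * π) with hc1
  have hc1pos : 0 < c1 := by positivity
  refine ⟨(2 / 7) ^ (lam / 2) * c1, by positivity, ?_⟩
  intro a b f hab hfm hf0 hfM hfs x
  obtain ⟨M, hM⟩ := hfM
  set l : ℝ := b - a with hl
  have hlpos : 0 < l := by rw [hl]; linarith
  have hM0 : 0 ≤ M := (hf0 0).trans (hM 0)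
  have hfint : Integrable f volume := by
    have h1 : IntegrableOn f (Icc a b) volume := by
      refine Measure.integrableOn_of_bounded (M := M) measure_Icc_lt_top.ne
        hfm.aestronglyMeasurable ?_
      refine Eventually.of_forall fun t => ?_
      rw [Real.norm_eq_abs, abs_of_nonneg (hf0 t)]
      exact hM t
    rw [← integrableOn_univ]
    have h2 : IntegrableOn f (Icc a b)ᶜ volume := by
      refine IntegrableOn.congr_fun (f := fun _ => (0:ℝ)) integrableOn_zero ?_
        measurableSet_Icc.compl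
      intro t ht
      exact (hfs t ht).symm
    rw [← union_compl_self (Icc a b)]
    exact h1.union h2
  set S : ℝ := ∫ t, f t with hS
  have hS0 : 0 ≤ S := integral_nonneg hf0
  set r : ℝ := l / (l + |x - (a + b) / 2|) with hr
  have habs := abs_nonneg (x - (a + b) / 2)
  have hrpos : 0 < r := by rw [hr]; positivity
  -- the derivative on the box
  have hder : ∀ z ∈ Icc (b + l) (b + 2 * l), ∀ y ∈ Icc l (2 * l),
      (c1 * (S / l ^ 2)) ^ 2 ≤ gradSq f z y := by
    intro z hz y hy
    have hy0 : 0 < y := lt_of_lt_of_le hlpos hy.1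
    unfold gradSq
    have h1 : (c1 * (S / l ^ 2)) ^ 2 ≤ deriv (fun s => poisson f s y) z ^ 2 := by
      rw [deriv_poisson hfint hy0]
      have e1 : ∫ t, -(2 * y * (z - t)) / ((z - t) ^ 2 + y ^ 2) ^ 2 * f t =
          -∫ t, (2 * y * (z - t)) / ((z - t) ^ 2 + y ^ 2) ^ 2 * f t := by
        rw [← integral_neg]
        refine integral_congr_ae (Eventually.of_forall fun t => ?_)
        show -(2 * y * (z - t)) / ((z - t) ^ 2 + y ^ 2) ^ 2 * f t =
          -((2 * y * (z - t)) / ((z - t) ^ 2 + y ^ 2) ^ 2 * f t)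
        ring
      have hkint : Integrable
          (fun t => (2 * y * (z - t)) / ((z - t) ^ 2 + y ^ 2) ^ 2 * f t) volume := by
        have hm : AEStronglyMeasurable
            (fun t : ℝ => (2 * y * (z - t)) / ((z - t) ^ 2 + y ^ 2) ^ 2) volume := by
          refine Continuous.aestronglyMeasurable ?_
          refine Continuous.div (by fun_prop) (by fun_prop) fun t => ?_
          have : 0 < (z - t) ^ 2 + y ^ 2 := by positivity
          positivity
        refine hfint.bdd_mul (c := 1 / y ^ 2) hm (Eventually.of_forall fun t => ?_)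
        have h2 : 0 < (z - t) ^ 2 + y ^ 2 := by positivity
        rw [Real.norm_eq_abs, abs_div, abs_mul, abs_mul, abs_of_pos hy0,
          abs_of_pos (show (0:ℝ) < 2 by norm_num),
          abs_of_pos (show 0 < ((z - t) ^ 2 + y ^ 2) ^ 2 by positivity),
          div_le_div_iff₀ (by positivity) (by positivity)]
        have h3 : 2 * y * |z - t| ≤ (z - t) ^ 2 + y ^ 2 := by
          rw [← sq_abs (z - t)]
          nlinarith [sq_nonneg (|z - t| - y)]
        have h4 : y ^ 2 ≤ (z - t) ^ 2 + y ^ 2 := by nlinarith [sq_nonneg (z - t)]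
        calc 2 * y * |z - t| * y ^ 2 ≤ ((z - t) ^ 2 + y ^ 2) * ((z - t) ^ 2 + y ^ 2) :=
              mul_le_mul h3 h4 (by positivity) h2.le
          _ = 1 * ((z - t) ^ 2 + y ^ 2) ^ 2 := by ring
      have h2 : 2 / (169 * l ^ 2) * S ≤
          ∫ t, (2 * y * (z - t)) / ((z - t) ^ 2 + y ^ 2) ^ 2 * f t := by
        rw [hS, ← integral_const_mul]
        refine integral_mono (hfint.const_mul _) hkint fun t => ?_
        show 2 / (169 * l ^ 2) * f t ≤ (2 * y * (z - t)) / ((z - t) ^ 2 + y ^ 2) ^ 2 * f t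
        by_cases ht : t ∈ Icc a b
        · refine mul_le_mul_of_nonneg_right ?_ (hf0 t)
          have d1 : l ≤ z - t := by linarith [hz.1, ht.2]
          have d2 : z - t ≤ 3 * l := by
            have := hz.2
            have := ht.1
            have : b = a + l := by rw [hl]; ring
            linarith
          have hy1 := hy.1
          have hy2 := hy.2
          have h3 : (z - t) ^ 2 + y ^ 2 ≤ 13 * l ^ 2 := by nlinarith
          have h4 : 2 * l ^ 2 ≤ 2 * y * (z - t) := by nlinarith
          have h5 : 0 < (z - t) ^ 2 + y ^ 2 := by positivity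
          rw [div_le_div_iff₀ (by positivity) (by positivity)]
          calc 2 * ((z - t) ^ 2 + y ^ 2) ^ 2 ≤ 2 * (13 * l ^ 2) ^ 2 := by
                refine mul_le_mul_of_nonneg_left ?_ (by norm_num)
                exact pow_le_pow_left₀ h5.le h3 2
            _ = (2 * l ^ 2) * (169 * l ^ 2) := by ring
            _ ≤ (2 * y * (z - t)) * (169 * l ^ 2) :=
                mul_le_mul_of_nonneg_right h4 (by positivity)
        · rw [hfs t ht, mul_zero, mul_zero]
      rw [e1, mul_neg, neg_sq]
      refine pow_le_pow_left₀ (by positivity) ?_ 2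
      calc c1 * (S / l ^ 2) = (1 / π) * (2 / (169 * l ^ 2) * S) := by
            rw [hc1]; field_simp
        _ ≤ _ := mul_le_mul_of_nonneg_left h2 (by positivity)
    have h7 := sq_nonneg (deriv (fun t => poisson f z t) y)
    linarith
  -- the kernel on the box
  have hker : ∀ z ∈ Icc (b + l) (b + 2 * l), ∀ y ∈ Icc l (2 * l),
      (2 / 7 * r) ^ lam ≤ (y / (|x - z| + y)) ^ lam := by
    intro z hz y hy
    have hy0 : 0 < y := lt_of_lt_of_le hlpos hy.1
    refine Real.rpow_le_rpow (by positivity) ?_ hlam.le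
    have h1 : |x - z| ≤ |x - (a + b) / 2| + 5 / 2 * l := by
      have h2 : x - z = (x - (a + b) / 2) + ((a + b) / 2 - z) := by ring
      rw [h2]
      refine (abs_add_le _ _).trans ?_
      have h3 : |(a + b) / 2 - z| ≤ 5 / 2 * l := by
        rw [abs_le]
        have := hz.1
        have := hz.2
        have : b = a + l := by rw [hl]; ring
        constructor <;> linarith
      linarith
    have h4 : 0 ≤ |x - z| := abs_nonneg _
    rw [hr]
    have e : 2 / 7 * (l / (l + |x - (a + b) / 2|)) = 2 * l / (7 * (l + |x - (a + b) / 2|)) := by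
      field_simp
    rw [e, div_le_div_iff₀ (by positivity) (by positivity)]
    have hy1 := hy.1
    nlinarith [mul_nonneg hlpos.le habs, mul_nonneg (sub_nonneg.2 hy1) habs,
      mul_nonneg hlpos.le (sub_nonneg.2 h1), mul_nonneg hlpos.le (sub_nonneg.2 hy1)]
  -- the integral
  set K : ℝ := (2 / 7) ^ (lam / 2) * c1 * r ^ (lam / 2) * (l⁻¹ * S) with hK
  have hK0 : 0 ≤ K := by positivity
  have hKsq : K ^ 2 = ((2 / 7 * r) ^ lam * (c1 * (S / l ^ 2)) ^ 2) * (l * l) := by
    have e1 : ((2 / 7 : ℝ) ^ (lam / 2)) ^ 2 = (2 / 7) ^ lam := by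
      rw [← Real.rpow_natCast, ← Real.rpow_mul (by norm_num)]
      congr 1; push_cast; ring
    have e2 : (r ^ (lam / 2)) ^ 2 = r ^ lam := by
      rw [← Real.rpow_natCast, ← Real.rpow_mul hrpos.le]
      congr 1; push_cast; ring
    rw [hK, mul_pow, mul_pow, mul_pow, e1, e2, Real.mul_rpow (by norm_num) hrpos.le]
    field_simp
  show ENNReal.ofReal K ≤ gStar lam f x
  unfold gStar
  have hsq : ENNReal.ofReal K = (ENNReal.ofReal (K ^ 2)) ^ (1 / 2 : ℝ) := by
    rw [ENNReal.ofReal_rpow_of_nonneg (by positivity) (by norm_num)]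
    congr 1
    rw [← Real.sqrt_eq_rpow, Real.sqrt_sq hK0]
  rw [hsq]
  refine ENNReal.rpow_le_rpow ?_ (by norm_num)
  set c : ℝ := (2 / 7 * r) ^ lam * (c1 * (S / l ^ 2)) ^ 2 with hc
  have hc0 : 0 ≤ c := by positivity
  have hbox : ∀ z ∈ Icc (b + l) (b + 2 * l), ENNReal.ofReal (c * l) ≤
      ∫⁻ y in Ioi (0 : ℝ), ENNReal.ofReal ((y / (|x - z| + y)) ^ lam * gradSq f z y) := by
    intro z hz
    have h1 : ∫⁻ _y in Icc l (2 * l), ENNReal.ofReal c = ENNReal.ofReal (c * l) := by
      rw [setLIntegral_const, Real.volume_Icc, ← ENNReal.ofReal_mul hc0]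
      congr 1; ring
    rw [← h1]
    refine le_trans ?_ (lintegral_mono_set (s := Icc l (2 * l)) (t := Ioi 0) ?_)
    · refine setLIntegral_mono' measurableSet_Icc fun y hy => ?_
      apply ENNReal.ofReal_le_ofReal
      have hy0 : 0 < y := lt_of_lt_of_le hlpos hy.1
      exact mul_le_mul (hker z hz y hy) (hder z hz y hy) (by positivity) (by positivity)
    · intro y hy
      exact lt_of_lt_of_le hlpos hy.1
  calc ENNReal.ofReal (K ^ 2) = ENNReal.ofReal ((c * l) * l) := by
        rw [hKsq]; congr 1; ring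
    _ = ∫⁻ _z in Icc (b + l) (b + 2 * l), ENNReal.ofReal (c * l) := by
        rw [setLIntegral_const, Real.volume_Icc, ← ENNReal.ofReal_mul (by positivity)]
        congr 1; ring
    _ ≤ ∫⁻ z in Icc (b + l) (b + 2 * l), ∫⁻ y in Ioi (0 : ℝ),
        ENNReal.ofReal ((y / (|x - z| + y)) ^ lam * gradSq f z y) :=
        setLIntegral_mono' measurableSet_Icc hbox
    _ ≤ _ := setLIntegral_le_lintegral _ _

end Pool.Agent.Q208.GL
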