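import Pool.Agent.Q64.GL.Stm

set_option autoImplicit false

/-! Project GL: necessity of the two conditions on the weight. -/

open MeasureTheory Set Filter Topology
open scoped ENNReal NNReal Real

namespace Pool.Agent.Q208.GL

open Pool.Agent.Q64.GL

/-- the general consequence of the inequality for a bounded function with support in an interval -/
theorem nec_cons (hL : S_LOW) {lam p : ℝ} {U : ℝ → ℝ} (hlam : 0 < lam) (hp : 0 < p)
    (hU : IsWeight U) (hstar : Star lam p U) : ∃ (κ : ℝ) (C : ℝ≥0), 0 < κ ∧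
    ∀ (a b M : ℝ) (f : ℝ → ℝ), a < b → Measurable f → (∀ x, 0 ≤ f x) → (∀ x, f x ≤ M) →
      (∀ x, x ∉ Icc a b → f x = 0) →
      ∫⁻ x, ENNReal.ofReal (κ * ((b - a) / ((b - a) + |x - (a + b) / 2|)) ^ (lam / 2) *
        ((b - a)⁻¹ * ∫ t, f t)) ^ p * ENNReal.ofReal (U x) ≤
        C * ∫⁻ x, ENNReal.ofReal (f x ^ p * U x) := by
  obtain ⟨κ, hκ, hlow⟩ := hL lam hlam
  obtain ⟨C, hC⟩ := hstar
  refine ⟨κ, C, hκ, ?_⟩
  intro a b M f hab hfm hf0 hfM hfs
  have hfin : ∫⁻ x, ENNReal.ofReal (|f x| ^ p * U x) < ∞ := by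
    have h1 : ∀ x, ENNReal.ofReal (|f x| ^ p * U x) ≤
        (Icc a b).indicator (fun x => ENNReal.ofReal (M ^ p * U x)) x := by
      intro x
      by_cases hx : x ∈ Icc a b
      · rw [indicator_of_mem hx]
        apply ENNReal.ofReal_le_ofReal
        refine mul_le_mul_of_nonneg_right ?_ (hU.nonneg x)
        rw [abs_of_nonneg (hf0 x)]
        exact Real.rpow_le_rpow (hf0 x) (hfM x) hp.le
      · rw [indicator_of_notMem hx, hfs x hx, abs_zero, Real.zero_rpow hp.ne', zero_mul,
          ENNReal.ofReal_zero]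
    refine (lintegral_mono h1).trans_lt ?_
    rw [lintegral_indicator measurableSet_Icc]
    have h2 : IntegrableOn U (Icc a b) volume := hU.loc.integrableOn_isCompact isCompact_Icc
    exact (h2.const_mul (M ^ p)).lintegral_lt_top
  have h3 := hC f hfm.aemeasurable hfin
  have h4 : ∀ x, ENNReal.ofReal (|f x| ^ p * U x) = ENNReal.ofReal (f x ^ p * U x) := by
    intro x; rw [abs_of_nonneg (hf0 x)]
  simp_rw [h4] at h3
  refine le_trans (lintegral_mono fun x => ?_) h3
  refine mul_le_mul_left ?_ _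
  exact ENNReal.rpow_le_rpow (hlow a b f hab hfm hf0 ⟨M, hfM⟩ hfs x) hp.le

theorem nec_B (hL : S_LOW) {lam p : ℝ} {U : ℝ → ℝ} (hlam : 0 < lam) (hp : 1 < p)
    (hU : IsWeight U) (hstar : Star lam p U) : B (lam * p / 2) U := by
  have hp0 : 0 < p := by linarith
  obtain ⟨κ, C, hκ, h⟩ := nec_cons hL hlam hp0 hU hstar
  set r : ℝ := lam * p / 2 with hr
  have hr0 : 0 < r := by positivity
  refine ⟨(2 ^ r * (κ ^ p)⁻¹).toNNReal * C, ?_⟩
  intro a l hl
  set f : ℝ → ℝ := (Icc (a - l / 2) (a + l / 2)).indicator (fun _ => 1) with hf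
  have hint : ∫ t, f t = l := by
    rw [hf, integral_indicator measurableSet_Icc, setIntegral_const, measureReal_def,
      Real.volume_Icc, smul_eq_mul, mul_one, ENNReal.toReal_ofReal (by linarith)]
    ring
  have h1 := h (a - l / 2) (a + l / 2) 1 f (by linarith)
    (measurable_const.indicator measurableSet_Icc)
    (fun x => indicator_nonneg (fun _ _ => zero_le_one) x)
    (fun x => by
      rw [hf]
      by_cases hx : x ∈ Icc (a - l / 2) (a + l / 2)
      · rw [indicator_of_mem hx]
      · rw [indicator_of_notMem hx]; norm_num)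
    (fun x hx => by rw [hf, indicator_of_notMem hx])
  have e1 : a + l / 2 - (a - l / 2) = l := by ring
  have e2 : (a - l / 2 + (a + l / 2)) / 2 = a := by ring
  rw [e1, e2, hint, inv_mul_cancel₀ hl.ne'] at h1
  have e3 : ∫⁻ x, ENNReal.ofReal (f x ^ p * U x) =
      ∫⁻ x in Icc (a - l / 2) (a + l / 2), ENNReal.ofReal (U x) := by
    rw [← lintegral_indicator measurableSet_Icc]
    refine lintegral_congr fun x => ?_
    by_cases hx : x ∈ Icc (a - l / 2) (a + l / 2)
    · rw [indicator_of_mem hx, hf, indicator_of_mem hx, Real.one_rpow, one_mul]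
    · rw [indicator_of_notMem hx, hf, indicator_of_notMem hx, Real.zero_rpow hp0.ne', zero_mul,
        ENNReal.ofReal_zero]
  rw [e3] at h1
  -- pointwise
  have hpt : ∀ x, ENNReal.ofReal (l ^ (r - 1) * U x / (l ^ r + |x - a| ^ r)) ≤
      ENNReal.ofReal (2 ^ r * (κ ^ p)⁻¹ * l⁻¹) *
        (ENNReal.ofReal (κ * (l / (l + |x - a|)) ^ (lam / 2) * 1) ^ p * ENNReal.ofReal (U x)) := by
    intro x
    set d := |x - a| with hd
    have hd0 : 0 ≤ d := abs_nonneg _
    have hw : 0 < l / (l + d) := by positivity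
    rw [mul_one, ENNReal.ofReal_rpow_of_nonneg (by positivity) hp0.le,
      ← ENNReal.ofReal_mul (by positivity), ← ENNReal.ofReal_mul (by positivity)]
    apply ENNReal.ofReal_le_ofReal
    have e4 : (κ * (l / (l + d)) ^ (lam / 2)) ^ p = κ ^ p * (l / (l + d)) ^ r := by
      rw [Real.mul_rpow hκ.le (by positivity), ← Real.rpow_mul hw.le]
      congr 2
      rw [hr]; ring
    rw [e4, Real.div_rpow hl.le (by positivity), Real.rpow_sub_one hl.ne']
    have hκp : 0 < κ ^ p := by positivity
    have hmax : (l + d) ^ r ≤ 2 ^ r * (l ^ r + d ^ r) := by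
      rcases le_total l d with hld | hld
      · calc (l + d) ^ r ≤ (2 * d) ^ r := Real.rpow_le_rpow (by positivity) (by linarith) hr0.le
          _ = 2 ^ r * d ^ r := Real.mul_rpow (by norm_num) hd0
          _ ≤ 2 ^ r * (l ^ r + d ^ r) := by
              refine mul_le_mul_of_nonneg_left ?_ (by positivity)
              have : 0 < l ^ r := by positivity
              linarith
      · calc (l + d) ^ r ≤ (2 * l) ^ r := Real.rpow_le_rpow (by positivity) (by linarith) hr0.le
          _ = 2 ^ r * l ^ r := Real.mul_rpow (by norm_num) hl.le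
          _ ≤ 2 ^ r * (l ^ r + d ^ r) := by
              refine mul_le_mul_of_nonneg_left ?_ (by positivity)
              have : 0 ≤ d ^ r := by positivity
              linarith
    have hlr : 0 < l ^ r := by positivity
    have hdr : 0 ≤ d ^ r := by positivity
    have hldr : 0 < (l + d) ^ r := by positivity
    have e5 : l ^ r / l * U x / (l ^ r + d ^ r) = l⁻¹ * l ^ r * U x * (l ^ r + d ^ r)⁻¹ := by
      field_simp
    have e6 : 2 ^ r * (κ ^ p)⁻¹ * l⁻¹ * (κ ^ p * (l ^ r / (l + d) ^ r) * U x) =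
        l⁻¹ * l ^ r * U x * (2 ^ r * ((l + d) ^ r)⁻¹) := by
      field_simp
    rw [e5, e6]
    refine mul_le_mul_of_nonneg_left ?_
      (mul_nonneg (by positivity) (hU.nonneg x))
    rw [← div_eq_mul_inv, ← one_div, div_le_div_iff₀ (by positivity) hldr, one_mul]
    exact hmax
  calc ∫⁻ x, ENNReal.ofReal (l ^ (r - 1) * U x / (l ^ r + |x - a| ^ r))
      ≤ ∫⁻ x, ENNReal.ofReal (2 ^ r * (κ ^ p)⁻¹ * l⁻¹) *
        (ENNReal.ofReal (κ * (l / (l + |x - a|)) ^ (lam / 2) * 1) ^ p * ENNReal.ofReal (U x)) :=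
        lintegral_mono hpt
    _ = ENNReal.ofReal (2 ^ r * (κ ^ p)⁻¹ * l⁻¹) * ∫⁻ x,
        (ENNReal.ofReal (κ * (l / (l + |x - a|)) ^ (lam / 2) * 1) ^ p * ENNReal.ofReal (U x)) :=
        lintegral_const_mul' _ _ ENNReal.ofReal_ne_top
    _ ≤ ENNReal.ofReal (2 ^ r * (κ ^ p)⁻¹ * l⁻¹) * (C *
        ∫⁻ x in Icc (a - l / 2) (a + l / 2), ENNReal.ofReal (U x)) := mul_le_mul_right h1 _
    _ = _ := by
        rw [ENNReal.ofReal_mul (by positivity), ENNReal.ofReal_inv_of_pos hl, ← mul_assoc,
          ENNReal.coe_mul, div_eq_mul_inv]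
        congr 1
        rw [mul_right_comm]
        rfl

theorem nec_A (hL : S_LOW) {lam p : ℝ} {U : ℝ → ℝ} (hlam : 0 < lam) (hp : 1 < p)
    (hU : IsWeight U) (hstar : Star lam p U) : A p U := by
  have hp0 : 0 < p := by linarith
  have hp1 : 0 < p - 1 := by linarith
  obtain ⟨κ, C, hκ, h⟩ := nec_cons hL hlam hp0 hU hstar
  set κ' : ℝ := κ * (2 / 3) ^ (lam / 2) with hκ'
  have hκ'0 : 0 < κ' := by positivity
  set e : ℝ := -1 / (p - 1) with he
  have he0 : e < 0 := by rw [he]; exact div_neg_of_neg_of_pos (by norm_num) hp1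
  -- a measurable representative
  obtain ⟨V, hVm, hV0, hVU⟩ : ∃ V : ℝ → ℝ, Measurable V ∧ (∀ x, 0 ≤ V x) ∧ U =ᵐ[volume] V := by
    have h1 := hU.loc.aestronglyMeasurable
    refine ⟨fun x => |h1.mk U x|, h1.stronglyMeasurable_mk.measurable.abs, fun x => abs_nonneg _, ?_⟩
    filter_upwards [h1.ae_eq_mk] with x hx
    rw [← hx, abs_of_nonneg (hU.nonneg x)]
  refine ⟨(((κ' ^ p)⁻¹).toNNReal * C), ?_⟩
  intro a b hab
  set l : ℝ := b - a with hl
  have hl0 : 0 < l := by rw [hl]; linarith
  set UI : ℝ≥0∞ := ∫⁻ x in Icc a b, ENNReal.ofReal (U x) with hUI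
  have hUIfin : UI ≠ ∞ := by
    have h2 : IntegrableOn U (Icc a b) volume := hU.loc.integrableOn_isCompact isCompact_Icc
    exact h2.lintegral_lt_top.ne
  set ε : ℕ → ℝ := fun n => 1 / ((n : ℝ) + 1) with hε
  have hε0 : ∀ n, 0 < ε n := fun n => by rw [hε]; positivity
  have hw0 : ∀ n x, 0 < V x + ε n := fun n x => add_pos_of_nonneg_of_pos (hV0 x) (hε0 n)
  set F : ℕ → ℝ≥0∞ := fun n => ∫⁻ x in Icc a b, ENNReal.ofReal ((V x + ε n) ^ e) with hF
  -- the functions
  have key : ∀ n, ENNReal.ofReal (κ' * l⁻¹) ^ p * F n ^ (p - 1) * UI ≤ C := by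
    intro n
    set f : ℝ → ℝ := (Icc a b).indicator (fun x => (V x + ε n) ^ e) with hf
    have hfm : Measurable f :=
      ((hVm.add_const _).pow_const e).indicator measurableSet_Icc
    have hf0 : ∀ x, 0 ≤ f x := fun x =>
      indicator_nonneg (fun y _ => Real.rpow_nonneg (hw0 n y).le _) x
    have hfM : ∀ x, f x ≤ (ε n) ^ e := by
      intro x
      by_cases hx : x ∈ Icc a b
      · rw [hf, indicator_of_mem hx]
        exact Real.rpow_le_rpow_of_nonpos (hε0 n) (by linarith [hV0 x]) he0.le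
      · rw [hf, indicator_of_notMem hx]
        exact Real.rpow_nonneg (hε0 n).le _
    have hfs : ∀ x, x ∉ Icc a b → f x = 0 := fun x hx => by rw [hf, indicator_of_notMem hx]
    have h1 := h a b _ f hab hfm hf0 hfM hfs
    -- right side
    have h2 : ∫⁻ x, ENNReal.ofReal (f x ^ p * U x) ≤ F n := by
      rw [hF]
      simp only
      rw [← lintegral_indicator measurableSet_Icc]
      refine lintegral_mono_ae ?_
      filter_upwards [hVU] with x hx
      by_cases hxI : x ∈ Icc a b
      · rw [indicator_of_mem hxI, hf, indicator_of_mem hxI, hx]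
        apply ENNReal.ofReal_le_ofReal
        have hw := hw0 n x
        have e1 : ((V x + ε n) ^ e) ^ p = (V x + ε n) ^ e * (V x + ε n)⁻¹ := by
          rw [← Real.rpow_mul hw.le, ← Real.rpow_neg_one (V x + ε n), ← Real.rpow_add hw]
          congr 1
          rw [he]
          field_simp
          ring
        rw [e1, mul_assoc]
        refine mul_le_of_le_one_right (Real.rpow_nonneg hw.le _) ?_
        rw [inv_mul_le_iff₀ hw]
        linarith [hε0 n]
      · rw [indicator_of_notMem hxI, hfs x hxI, Real.zero_rpow hp0.ne', zero_mul,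
          ENNReal.ofReal_zero]
    have hFi : Integrable f volume := by
      have h3 : IntegrableOn f (Icc a b) volume := by
        refine Measure.integrableOn_of_bounded (M := (ε n) ^ e) measure_Icc_lt_top.ne
          hfm.aestronglyMeasurable ?_
        refine Eventually.of_forall fun t => ?_
        rw [Real.norm_eq_abs, abs_of_nonneg (hf0 t)]
        exact hfM t
      rw [← integrableOn_univ, ← union_compl_self (Icc a b)]
      refine h3.union ?_
      refine IntegrableOn.congr_fun (f := fun _ => (0:ℝ)) integrableOn_zero ?_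
        measurableSet_Icc.compl
      intro t ht
      exact (hfs t ht).symm
    have hFeq : F n = ENNReal.ofReal (∫ t, f t) := by
      rw [ofReal_integral_eq_lintegral_ofReal hFi (Eventually.of_forall hf0)]
      rw [hF]
      simp only
      rw [← lintegral_indicator measurableSet_Icc]
      refine lintegral_congr fun x => ?_
      by_cases hx : x ∈ Icc a b
      · rw [indicator_of_mem hx, hf, indicator_of_mem hx]
      · rw [indicator_of_notMem hx, hfs x hx, ENNReal.ofReal_zero]
    have hFfin : F n ≠ ∞ := by rw [hFeq]; exact ENNReal.ofReal_ne_top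
    have hFpos : F n ≠ 0 := by
      rw [hF]
      simp only
      intro h0
      rw [lintegral_eq_zero_iff (by
        exact (((hVm.add_const _).pow_const e).ennreal_ofReal))] at h0
      have h3 : ∀ᵐ x ∂(volume.restrict (Icc a b)), False := by
        filter_upwards [h0] with x hx
        have : 0 < (V x + ε n) ^ e := Real.rpow_pos_of_pos (hw0 n x) _
        simp only [Pi.zero_apply, ENNReal.ofReal_eq_zero] at hx
        linarith
      rw [ae_restrict_iff' measurableSet_Icc] at h3
      have h4 : volume (Icc a b) = 0 := by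
        refine measure_mono_null (fun x hx => ?_) h3
        exact fun hcon => hcon hx
      rw [Real.volume_Icc, ENNReal.ofReal_eq_zero] at h4
      linarith
    -- left side
    have h5 : ENNReal.ofReal (κ' * l⁻¹) ^ p * F n ^ p * UI ≤
        ∫⁻ x, ENNReal.ofReal (κ * (l / (l + |x - (a + b) / 2|)) ^ (lam / 2) *
        (l⁻¹ * ∫ t, f t)) ^ p * ENNReal.ofReal (U x) := by
      rw [hUI, ← lintegral_const_mul' _ _ (by
        refine ENNReal.mul_ne_top (ENNReal.rpow_ne_top_of_nonneg hp0.le ENNReal.ofReal_ne_top)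
          (ENNReal.rpow_ne_top_of_nonneg hp0.le hFfin))]
      refine le_trans ?_ (setLIntegral_le_lintegral (Icc a b) _)
      refine setLIntegral_mono' measurableSet_Icc fun x hx => ?_
      refine mul_le_mul_left ?_ _
      rw [← ENNReal.mul_rpow_of_nonneg _ _ hp0.le, hFeq, ← ENNReal.ofReal_mul (by positivity)]
      refine ENNReal.rpow_le_rpow (ENNReal.ofReal_le_ofReal ?_) hp0.le
      have hI0 : 0 ≤ ∫ t, f t := integral_nonneg hf0
      have hab2 : |x - (a + b) / 2| ≤ l / 2 := by
        rw [abs_le, hl]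
        constructor <;> linarith [hx.1, hx.2]
      have hab3 : 0 ≤ |x - (a + b) / 2| := abs_nonneg _
      have h6 : (2 / 3 : ℝ) ^ (lam / 2) ≤ (l / (l + |x - (a + b) / 2|)) ^ (lam / 2) := by
        refine Real.rpow_le_rpow (by norm_num) ?_ (by positivity)
        rw [div_le_div_iff₀ (by norm_num) (by positivity)]
        linarith
      calc κ' * l⁻¹ * ∫ t, f t = κ * (2 / 3) ^ (lam / 2) * (l⁻¹ * ∫ t, f t) := by
            rw [hκ']; ring
        _ ≤ κ * (l / (l + |x - (a + b) / 2|)) ^ (lam / 2) * (l⁻¹ * ∫ t, f t) := by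
            refine mul_le_mul_of_nonneg_right ?_ (by positivity)
            exact mul_le_mul_of_nonneg_left h6 hκ.le
    have h7 : ENNReal.ofReal (κ' * l⁻¹) ^ p * F n ^ (p - 1) * UI * F n ≤ C * F n := by
      have e2 : F n ^ p = F n ^ (p - 1) * F n := by
        have : p = (p - 1) + 1 := by ring
        conv_lhs => rw [this]
        rw [ENNReal.rpow_add _ _ hFpos hFfin, ENNReal.rpow_one]
      calc ENNReal.ofReal (κ' * l⁻¹) ^ p * F n ^ (p - 1) * UI * F n
          = ENNReal.ofReal (κ' * l⁻¹) ^ p * F n ^ p * UI := by rw [e2]; ring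
        _ ≤ _ := h5.trans h1
        _ ≤ C * F n := mul_le_mul_right h2 _
    exact (ENNReal.mul_le_mul_iff_left hFpos hFfin).1 h7
  -- the limit
  set G : ℝ≥0∞ := ∫⁻ x in Icc a b, ENNReal.ofReal (V x) ^ e with hG
  have hpw : ∀ n x, ENNReal.ofReal ((V x + ε n) ^ e) = (ENNReal.ofReal (V x + ε n)) ^ e :=
    fun n x => (ENNReal.ofReal_rpow_of_pos (hw0 n x)).symm
  have hεanti : Antitone ε := by
    intro m n hmn
    rw [hε]
    simp only
    apply one_div_le_one_div_of_le (by positivity)
    have : (m : ℝ) ≤ n := by exact_mod_cast hmn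
    linarith
  have hεlim : Tendsto ε atTop (𝓝 0) := tendsto_one_div_add_atTop_nhds_zero_nat
  have hlim : Tendsto F atTop (𝓝 G) := by
    refine lintegral_tendsto_of_tendsto_of_monotone ?_ ?_ ?_
    · intro n
      exact (((hVm.add_const _).pow_const e).ennreal_ofReal).aemeasurable
    · refine Eventually.of_forall fun x m n hmn => ?_
      apply ENNReal.ofReal_le_ofReal
      exact Real.rpow_le_rpow_of_nonpos (hw0 n x) (by linarith [hεanti hmn]) he0.le
    · refine Eventually.of_forall fun x => ?_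
      simp_rw [hpw]
      refine ((ENNReal.continuous_rpow_const (y := e)).tendsto _).comp ?_
      have h1 : Tendsto (fun n => V x + ε n) atTop (𝓝 (V x + 0)) := tendsto_const_nhds.add hεlim
      rw [add_zero] at h1
      exact (ENNReal.continuous_ofReal.tendsto _).comp h1
  have hlim2 : Tendsto (fun n => ENNReal.ofReal (κ' * l⁻¹) ^ p * F n ^ (p - 1) * UI) atTop
      (𝓝 (ENNReal.ofReal (κ' * l⁻¹) ^ p * G ^ (p - 1) * UI)) := by
    refine ENNReal.Tendsto.mul_const ?_ (Or.inr hUIfin)
    refine ENNReal.Tendsto.const_mul ?_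
      (Or.inr (ENNReal.rpow_ne_top_of_nonneg hp0.le ENNReal.ofReal_ne_top))
    exact ((ENNReal.continuous_rpow_const (y := p - 1)).tendsto _).comp hlim
  have hfinal := le_of_tendsto' hlim2 key
  have hGU : ∫⁻ x in Icc a b, ENNReal.ofReal (U x) ^ e = G := by
    rw [hG]
    refine lintegral_congr_ae (ae_restrict_of_ae ?_)
    filter_upwards [hVU] with x hx
    rw [hx]
  rw [hGU]
  have hlne : ENNReal.ofReal l ≠ 0 := by
    rw [Ne, ENNReal.ofReal_eq_zero]; linarith
  set L : ℝ≥0∞ := (ENNReal.ofReal l)⁻¹ with hLdef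
  have hL0 : L ≠ 0 := ENNReal.inv_ne_zero.2 ENNReal.ofReal_ne_top
  have hLf : L ≠ ∞ := ENNReal.inv_ne_top.2 hlne
  have e3 : ENNReal.ofReal (κ' * l⁻¹) ^ p = ENNReal.ofReal (κ' ^ p) * (L * L ^ (p - 1)) := by
    rw [ENNReal.ofReal_mul hκ'0.le, ENNReal.ofReal_inv_of_pos hl0,
      ENNReal.mul_rpow_of_nonneg _ _ hp0.le, ENNReal.ofReal_rpow_of_nonneg hκ'0.le hp0.le]
    congr 1
    have : p = 1 + (p - 1) := by ring
    conv_lhs => rw [this]
    rw [ENNReal.rpow_add _ _ hL0 hLf, ENNReal.rpow_one]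
  rw [e3] at hfinal
  have hκp0 : ENNReal.ofReal (κ' ^ p) ≠ 0 := by
    rw [Ne, ENNReal.ofReal_eq_zero]; push Not; positivity
  have e4 : ((((κ' ^ p)⁻¹).toNNReal * C : ℝ≥0) : ℝ≥0∞) = (ENNReal.ofReal (κ' ^ p))⁻¹ * C := by
    rw [ENNReal.coe_mul, ← ENNReal.ofReal_inv_of_pos (by positivity)]
    rfl
  rw [e4, ENNReal.mul_rpow_of_nonneg _ _ hp1.le]
  rw [← ENNReal.mul_le_iff_le_inv hκp0 ENNReal.ofReal_ne_top]
  refine le_trans (le_of_eq ?_) hfinal
  ring

theorem t_NEC (hL : S_LOW) : S_NEC := fun _ _ _ hlam hp hU hstar =>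
  ⟨nec_A hL hlam hp hU hstar, nec_B hL hlam hp hU hstar⟩

end Pool.Agent.Q208.GL
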