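import Pool.Agent.Q208.GL.Open

set_option autoImplicit false

/-! Project GL: translation of the hypotheses. -/

open MeasureTheory Set Filter Topology
open scoped ENNReal NNReal Real

namespace Pool.Agent.Q208.GL

open Pool.Agent.Q64.GL

/-- a weight in `A_p` which is not a.e. zero is a.e. positive -/
theorem ae_pos {p : ℝ} {U : ℝ → ℝ} (hp : 1 < p) (hU : IsWeight U) (hne : ¬ (U =ᵐ[volume] 0))
    (hA : A p U) : ∀ᵐ x, 0 < U x := by
  obtain ⟨C, hC⟩ := hA
  have hp1 : 0 < p - 1 := by linarith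
  have he0 : -1 / (p - 1) < 0 := div_neg_of_neg_of_pos (by norm_num) hp1
  have hUm : AEMeasurable (fun x => ENNReal.ofReal (U x)) volume :=
    hU.loc.aestronglyMeasurable.aemeasurable.ennreal_ofReal
  have hcov : (⋃ n : ℕ, Icc (-(n:ℝ)) n) = univ := by
    ext x
    simp only [mem_iUnion, mem_univ, iff_true]
    obtain ⟨n, hn⟩ := exists_nat_ge |x|
    exact ⟨n, abs_le.1 hn⟩
  by_contra hcon
  obtain ⟨n, hn⟩ : ∃ n : ℕ, ¬ ∀ᵐ x ∂(volume.restrict (Icc (-(n:ℝ)) n)), 0 < U x := by
    by_contra h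
    push Not at h
    apply hcon
    have := (ae_restrict_iUnion_iff (μ := volume) (fun n : ℕ => Icc (-(n:ℝ)) n)
      (fun x => 0 < U x)).2 h
    rwa [hcov, Measure.restrict_univ] at this
  obtain ⟨k, hk⟩ : ∃ k : ℕ, ¬ ∀ᵐ x ∂(volume.restrict (Icc (-(k:ℝ)) k)), U x = 0 := by
    by_contra h
    push Not at h
    apply hne
    have := (ae_restrict_iUnion_iff (μ := volume) (fun n : ℕ => Icc (-(n:ℝ)) n)
      (fun x => U x = 0)).2 h
    rwa [hcov, Measure.restrict_univ] at this
  set R : ℝ := max (n:ℝ) k + 1 with hR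
  have hR0 : 0 < R := by
    have : (0:ℝ) ≤ n := Nat.cast_nonneg n
    have := le_max_left (n:ℝ) k
    linarith
  have hnR : Icc (-(n:ℝ)) n ⊆ Icc (-R) R := by
    have := le_max_left (n:ℝ) k
    exact Icc_subset_Icc (by linarith) (by linarith)
  have hkR : Icc (-(k:ℝ)) k ⊆ Icc (-R) R := by
    have := le_max_right (n:ℝ) k
    exact Icc_subset_Icc (by linarith) (by linarith)
  have h1 : ∫⁻ x in Icc (-R) R, ENNReal.ofReal (U x) ≠ 0 := by
    intro h0
    rw [lintegral_eq_zero_iff' hUm.restrict] at h0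
    apply hk
    have h2 := ae_mono (Measure.restrict_mono hkR le_rfl) h0
    filter_upwards [h2] with x hx
    simp only [Pi.zero_apply, ENNReal.ofReal_eq_zero] at hx
    exact le_antisymm hx (hU.nonneg x)
  have h2 : ∫⁻ x in Icc (-R) R, ENNReal.ofReal (U x) ^ (-1 / (p - 1)) = ∞ := by
    by_contra hfin
    have h3 := ae_lt_top' ((hUm.pow_const (-1 / (p - 1))).restrict (s := Icc (-R) R)) hfin
    apply hn
    have h4 := ae_mono (Measure.restrict_mono hnR le_rfl) h3
    filter_upwards [h4] with x hx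
    by_contra hx0
    have : U x = 0 := le_antisymm (not_lt.1 hx0) (hU.nonneg x)
    rw [this, ENNReal.ofReal_zero, ENNReal.zero_rpow_of_neg he0] at hx
    exact lt_irrefl _ hx
  have h5 := hC (-R) R (by linarith)
  rw [h2] at h5
  have hL : (ENNReal.ofReal (R - -R))⁻¹ ≠ 0 := ENNReal.inv_ne_zero.2 ENNReal.ofReal_ne_top
  rw [ENNReal.mul_top hL, ENNReal.top_rpow_of_pos hp1,
    ENNReal.mul_top (mul_ne_zero hL h1)] at h5
  exact (lt_irrefl _ (h5.trans_lt ENNReal.coe_lt_top))

theorem tail_of_B {r : ℝ} {U : ℝ → ℝ} {u : ℝ → ℝ≥0∞} (hr : 1 < r) (hU : IsWeight U)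
    (hu : u =ᵐ[volume] fun x => ENNReal.ofReal (U x)) (hB : B r U) : ∃ T : ℝ≥0, Tail r u T := by
  obtain ⟨C, hC⟩ := hB
  refine ⟨2 * C, fun z y hy => ?_⟩
  have hr0 : 0 < r := by linarith
  have h1 := hC z (2 * y) (by positivity)
  have e1 : z - 2 * y / 2 = z - y := by ring
  have e2 : z + 2 * y / 2 = z + y := by ring
  rw [e1, e2] at h1
  have hmu : m u z y = ∫⁻ x in Icc (z - y) (z + y), ENNReal.ofReal (U x) := by
    unfold m
    rw [Measure.restrict_congr_set Ioo_ae_eq_Icc]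
    exact lintegral_congr_ae (ae_restrict_of_ae hu)
  rw [← hmu] at h1
  have hpt : ∀ᵐ x, ENNReal.ofReal (Pool.Agent.Q64.GL.ker r x z y) * u x ≤ ENNReal.ofReal (2 * (2 * y)) *
      ENNReal.ofReal ((2 * y) ^ (r - 1) * U x / ((2 * y) ^ r + |x - z| ^ r)) := by
    filter_upwards [hu] with x hx
    rw [hx]
    set l : ℝ := 2 * y with hl
    have hl0 : 0 < l := by positivity
    set d := |x - z| with hd
    have hd0 : 0 ≤ d := abs_nonneg _
    unfold Pool.Agent.Q64.GL.ker
    rw [← hd, ← ENNReal.ofReal_mul (by positivity), ← ENNReal.ofReal_mul (by positivity)]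
    apply ENNReal.ofReal_le_ofReal
    have hlr : 0 < l ^ r := by positivity
    have hdr : 0 ≤ d ^ r := by positivity
    have h2 : (y / (d + y)) ^ r ≤ (l / (l + d)) ^ r := by
      refine Real.rpow_le_rpow (by positivity) ?_ hr0.le
      rw [div_le_div_iff₀ (by positivity) (by positivity), hl]
      nlinarith [mul_nonneg hy.le hd0]
    have h3 : l ^ r + d ^ r ≤ 2 * (l + d) ^ r := by
      have a1 : l ^ r ≤ (l + d) ^ r := Real.rpow_le_rpow hl0.le (by linarith) hr0.le
      have a2 : d ^ r ≤ (l + d) ^ r := Real.rpow_le_rpow hd0 (by linarith) hr0.le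
      linarith
    have h4 : (l / (l + d)) ^ r ≤ 2 * l ^ r / (l ^ r + d ^ r) := by
      rw [Real.div_rpow hl0.le (by positivity), div_le_div_iff₀ (by positivity) (by positivity)]
      calc l ^ r * (l ^ r + d ^ r) ≤ l ^ r * (2 * (l + d) ^ r) :=
            mul_le_mul_of_nonneg_left h3 hlr.le
        _ = 2 * l ^ r * (l + d) ^ r := by ring
    have e3 : 2 * l * (l ^ (r - 1) * U x / (l ^ r + d ^ r)) =
        2 * l ^ r / (l ^ r + d ^ r) * U x := by
      rw [Real.rpow_sub_one hl0.ne']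
      field_simp
    rw [e3]
    exact mul_le_mul_of_nonneg_right (h2.trans h4) (hU.nonneg x)
  calc ∫⁻ x, ENNReal.ofReal (Pool.Agent.Q64.GL.ker r x z y) * u x
      ≤ ∫⁻ x, ENNReal.ofReal (2 * (2 * y)) *
        ENNReal.ofReal ((2 * y) ^ (r - 1) * U x / ((2 * y) ^ r + |x - z| ^ r)) :=
        lintegral_mono_ae hpt
    _ = ENNReal.ofReal (2 * (2 * y)) *
        ∫⁻ x, ENNReal.ofReal ((2 * y) ^ (r - 1) * U x / ((2 * y) ^ r + |x - z| ^ r)) :=
        lintegral_const_mul' _ _ ENNReal.ofReal_ne_top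
    _ ≤ ENNReal.ofReal (2 * (2 * y)) * (C / ENNReal.ofReal (2 * y) * m u z y) :=
        mul_le_mul_right h1 _
    _ = _ := by
        have h6 : ENNReal.ofReal (2 * y) ≠ 0 := by
          rw [Ne, ENNReal.ofReal_eq_zero]; push Not; positivity
        rw [ENNReal.ofReal_mul (by norm_num), ENNReal.coe_mul]
        calc ENNReal.ofReal 2 * ENNReal.ofReal (2 * y) * (C / ENNReal.ofReal (2 * y) * m u z y)
            = ENNReal.ofReal 2 * C * m u z y *
              (ENNReal.ofReal (2 * y) * (ENNReal.ofReal (2 * y))⁻¹) := by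
              rw [div_eq_mul_inv]; ring
          _ = _ := by
              rw [ENNReal.mul_inv_cancel h6 ENNReal.ofReal_ne_top, mul_one]
              simp

theorem growth_of_tail {q : ℝ} {u : ℝ → ℝ≥0∞} {T : ℝ≥0} (hq : 0 < q) (hT : Tail q u T) :
    ∃ D : ℝ≥0, Growth q u D := by
  refine ⟨((2:ℝ) ^ q).toNNReal * T, fun z y t hy ht => ?_⟩
  have ht0 : 0 < t := by linarith
  have hpt : ∀ x ∈ Ioo (z - t * y) (z + t * y), u x ≤
      ENNReal.ofReal ((2 * t) ^ q) * (ENNReal.ofReal (Pool.Agent.Q64.GL.ker q x z y) * u x) := by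
    intro x hx
    have h1 : 1 ≤ (2 * t) ^ q * Pool.Agent.Q64.GL.ker q x z y := by
      unfold Pool.Agent.Q64.GL.ker
      have hd0 : 0 ≤ |x - z| := abs_nonneg _
      rw [← Real.mul_rpow (by positivity) (by positivity)]
      refine Real.one_le_rpow ?_ hq.le
      rw [mul_div_assoc', one_le_div (by positivity)]
      have h2 : |x - z| ≤ t * y := by
        rw [abs_le]
        constructor <;> linarith [hx.1, hx.2]
      nlinarith
    rw [← mul_assoc, ← ENNReal.ofReal_mul (by positivity)]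
    calc u x = 1 * u x := (one_mul _).symm
      _ ≤ _ := mul_le_mul_left (by rw [← ENNReal.ofReal_one]; exact ENNReal.ofReal_le_ofReal h1) _
  calc m u z (t * y) ≤ ∫⁻ x in Ioo (z - t * y) (z + t * y),
        ENNReal.ofReal ((2 * t) ^ q) * (ENNReal.ofReal (Pool.Agent.Q64.GL.ker q x z y) * u x) :=
        setLIntegral_mono' measurableSet_Ioo hpt
    _ ≤ ∫⁻ x, ENNReal.ofReal ((2 * t) ^ q) * (ENNReal.ofReal (Pool.Agent.Q64.GL.ker q x z y) * u x) :=
        setLIntegral_le_lintegral _ _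
    _ = ENNReal.ofReal ((2 * t) ^ q) * ∫⁻ x, ENNReal.ofReal (Pool.Agent.Q64.GL.ker q x z y) * u x :=
        lintegral_const_mul' _ _ ENNReal.ofReal_ne_top
    _ ≤ ENNReal.ofReal ((2 * t) ^ q) * (T * m u z y) := mul_le_mul_right (hT z y hy) _
    _ = _ := by
        rw [Real.mul_rpow (by norm_num) ht0.le, ENNReal.ofReal_mul (by positivity),
          ENNReal.coe_mul]
        show ENNReal.ofReal (2 ^ q) * ENNReal.ofReal (t ^ q) * (T * m u z y) =
          ENNReal.ofReal (2 ^ q) * T * ENNReal.ofReal (t ^ q) * m u z y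
        ring

theorem t_TR : S_TR := by
  intro p r U hp hr hU hne hA hB
  have hp1 : 0 < p - 1 := by linarith
  have hpos := ae_pos hp hU hne hA
  -- a measurable representative
  obtain ⟨V, hVm, hVU⟩ : ∃ V : ℝ → ℝ, Measurable V ∧ U =ᵐ[volume] V :=
    ⟨hU.loc.aestronglyMeasurable.mk U, hU.loc.aestronglyMeasurable.stronglyMeasurable_mk.measurable,
      hU.loc.aestronglyMeasurable.ae_eq_mk⟩
  set u : ℝ → ℝ≥0∞ := fun x => if 0 < V x then ENNReal.ofReal (V x) else 1 with hu
  have huU : u =ᵐ[volume] fun x => ENNReal.ofReal (U x) := by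
    filter_upwards [hVU, hpos] with x h1 h2
    rw [hu]
    simp only
    rw [← h1, if_pos h2]
  have hum : Measurable u := by
    rw [hu]
    exact Measurable.ite (measurableSet_lt measurable_const hVm) hVm.ennreal_ofReal
      measurable_const
  obtain ⟨T, hT⟩ := tail_of_B hr hU huU hB
  obtain ⟨q, hq1, hqr, hBq⟩ := Op.B_open hU hr hB
  obtain ⟨Tq, hTq⟩ := tail_of_B hq1 hU huU hBq
  obtain ⟨D, hD⟩ := growth_of_tail (by linarith : 0 < q) hTq
  obtain ⟨C, hC⟩ := hA
  refine ⟨u, C, T, D, q, huU, ⟨hum, ?_, ?_, ?_, ?_⟩, hT, by linarith, hqr, hD⟩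
  · intro x
    rw [hu]
    simp only
    split_ifs with h
    · rw [Ne, ENNReal.ofReal_eq_zero]; linarith
    · exact one_ne_zero
  · intro x
    rw [hu]
    simp only
    split_ifs with h
    · exact ENNReal.ofReal_ne_top
    · exact ENNReal.one_ne_top
  · intro z y
    have h1 : m u z y ≤ ∫⁻ x in Icc (z - y) (z + y), ENNReal.ofReal (U x) := by
      unfold m
      refine le_trans (lintegral_mono_set Ioo_subset_Icc_self) ?_
      exact le_of_eq (lintegral_congr_ae (ae_restrict_of_ae huU))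
    have h2 : IntegrableOn U (Icc (z - y) (z + y)) volume :=
      hU.loc.integrableOn_isCompact isCompact_Icc
    exact (h1.trans_lt h2.lintegral_lt_top).ne
  · intro z y hy
    have h1 := hC (z - y) (z + y) (by linarith)
    have e1 : z + y - (z - y) = 2 * y := by ring
    rw [e1] at h1
    set L : ℝ≥0∞ := ENNReal.ofReal (2 * y) with hL
    have hL0 : L ≠ 0 := by
      rw [hL, Ne, ENNReal.ofReal_eq_zero]; push Not; positivity
    have hLf : L ≠ ∞ := ENNReal.ofReal_ne_top
    set I1 := ∫⁻ x in Icc (z - y) (z + y), ENNReal.ofReal (U x) with hI1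
    set I2 := ∫⁻ x in Icc (z - y) (z + y), ENNReal.ofReal (U x) ^ (-1 / (p - 1)) with hI2
    have m1 : m u z y ≤ I1 := by
      unfold m
      refine le_trans (lintegral_mono_set Ioo_subset_Icc_self) ?_
      exact le_of_eq (lintegral_congr_ae (ae_restrict_of_ae huU))
    have m2 : m (fun x => u x ^ (-1 / (p - 1))) z y ≤ I2 := by
      unfold m
      refine le_trans (lintegral_mono_set Ioo_subset_Icc_self) ?_
      refine le_of_eq (lintegral_congr_ae (ae_restrict_of_ae ?_))
      filter_upwards [huU] with x hx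
      rw [hx]
    have e2 : L ^ p = L * L ^ (p - 1) := by
      have : p = 1 + (p - 1) := by ring
      conv_lhs => rw [this]
      rw [ENNReal.rpow_add _ _ hL0 hLf, ENNReal.rpow_one]
    calc m u z y * m (fun x => u x ^ (-1 / (p - 1))) z y ^ (p - 1)
        ≤ I1 * I2 ^ (p - 1) := mul_le_mul' m1 (ENNReal.rpow_le_rpow m2 hp1.le)
      _ = (L⁻¹ * I1) * (L⁻¹ * I2) ^ (p - 1) * L ^ p := by
          rw [ENNReal.mul_rpow_of_nonneg _ _ hp1.le, e2]
          have h3 : L⁻¹ * L = 1 := ENNReal.inv_mul_cancel hL0 hLf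
          have h4 : L⁻¹ ^ (p - 1) * L ^ (p - 1) = 1 := by
            rw [← ENNReal.mul_rpow_of_nonneg _ _ hp1.le, h3, ENNReal.one_rpow]
          calc I1 * I2 ^ (p - 1) = (L⁻¹ * L) * (L⁻¹ ^ (p - 1) * L ^ (p - 1)) *
                (I1 * I2 ^ (p - 1)) := by rw [h3, h4, one_mul, one_mul]
            _ = _ := by ring
      _ ≤ C * L ^ p := mul_le_mul_left h1 _

end Pool.Agent.Q208.GL
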